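import Pool.Agent.W587.MX.Stm

/-!
Project MX, part LIMF: the bounded case.
-/

set_option autoImplicit false

namespace Pool.Agent.W724.MX

open Pool.Agent.W587.MX
open Set Filter Topology Metric

theorem limf_nonconst {f : ℂ → ℂ} {as : ℂ} (hf : Differentiable ℂ f) (hf0 : f 0 ≠ 0)
    (hdf : ∃ z, deriv f z ≠ 0) : ¬ ∀ z, z * deriv f z = as * f z := by
  intro h
  have h0 : as = 0 := by
    have := h 0
    rw [zero_mul] at this
    rcases mul_eq_zero.1 this.symm with h1 | h1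
    · exact h1
    · exact absurd h1 hf0
  have hc : Continuous (deriv f) := (hf.contDiff (n := 1)).continuous_deriv (by norm_num)
  have he : deriv f = fun _ => 0 := by
    apply Continuous.ext_on (dense_compl_singleton (0 : ℂ)) hc continuous_const
    intro x hx
    have := h x
    rw [h0, zero_mul] at this
    rcases mul_eq_zero.1 this with h1 | h1
    · exact absurd h1 hx
    · exact h1
  obtain ⟨z, hz⟩ := hdf
  exact hz (congrFun he z)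

theorem limf_limit (c2 : C2_LIM) {f : ℂ → ℂ} {l : Ultrafilter ℕ} {ζ a : ℕ → ℂ} {zs as : ℂ}
    (hf : Differentiable ℂ f) (hf0 : f 0 ≠ 0) (hζ : Tendsto ζ l (𝓝 zs))
    (hs : ∀ n, f (ζ n) ≠ 0 ∧ ζ n * deriv f (ζ n) = a n * f (ζ n)) (ha : Tendsto a l (𝓝 as)) :
    f zs ≠ 0 ∧ zs * deriv f zs = as * f zs := by
  obtain ⟨h1, h2⟩ := c2 f l ζ a zs hf hf0 hζ hs
  have hne : f zs ≠ 0 := by
    intro h0
    exact not_tendsto_nhds_of_tendsto_atTop (h2 h0) _ ha.norm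
  refine ⟨hne, ?_⟩
  have := tendsto_nhds_unique ha (h1 hne)
  rw [this]
  field_simp

theorem limf_pack (h4 : T4_BRF) (c2 : C2_LIM) {f : ℂ → ℂ} {l : Ultrafilter ℕ} {ζ a : ℕ → ℂ}
    {zs as : ℂ} (hf : Differentiable ℂ f) (hf0 : f 0 ≠ 0) (hdf : ∃ z, deriv f z ≠ 0)
    (hζ : Tendsto ζ l (𝓝 zs))
    (hs : ∀ n, f (ζ n) ≠ 0 ∧ ζ n * deriv f (ζ n) = a n * f (ζ n)) (ha : Tendsto a l (𝓝 as)) :
    ∃ e : ℕ, 1 ≤ e ∧ ∃ η : ℝ, 0 < η ∧ η ≤ 1 ∧ ∀ k : ℕ, 1 ≤ k → ∀ᶠ n in (l : Filter ℕ),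
      ∀ t : ℂ, ‖t‖ < η → t ^ (e * k) = a n - as →
      ∃ g : ℂ → ℂ, DifferentiableOn ℂ g (ball 0 η) ∧ g 0 = zs ∧ g t = ζ n ∧
        Sol f (fun u => as + u ^ (e * k)) g (ball 0 η) := by
  obtain ⟨hz1, hz2⟩ := limf_limit c2 hf hf0 hζ hs ha
  obtain ⟨e, he, η, hη, hη1, H⟩ := h4 f zs as hf hz1 hz2 (limf_nonconst hf hf0 hdf)
  refine ⟨e, he, η, hη, hη1, fun k hk => ?_⟩
  filter_upwards [hζ.eventually (H k hk)] with n hn t ht htk
  refine hn t ht ?_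
  rw [htk, (hs n).2]
  ring

theorem limf_sub {η η' : ℝ} (h : η ≤ η') : PB η ⊆ ball (0 : ℂ) η' := by
  intro u hu
  rw [mem_ball_zero_iff]
  exact lt_of_lt_of_le hu.2 h

theorem t9_limf (h4 : T4_BRF) (h8 : T8_STEP) (c1 : C1_CLS) (c2 : C2_LIM) (c3 : C3_IDX) :
    T9_LIMF := by
  intro f fs m δ κ K l a z w as hf hfs hf0 hfs0 hdf hdfs hC hCs hK hκ hmin hSP hne hlim hprod
  have hz : ∀ n i, f (z n i) ≠ 0 ∧ z n i * deriv f (z n i) = a n * f (z n i) := by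
    intro n i
    obtain ⟨_, _, Z, W, hZ, _⟩ := hSP n
    have := (hZ i).1.2.self_of_nhds
    rw [(hZ i).2] at this
    exact this
  have hw : ∀ n i, fs (w n i) ≠ 0 ∧ w n i * deriv fs (w n i) = a n * fs (w n i) := by
    intro n i
    obtain ⟨_, _, Z, W, _, hW, _⟩ := hSP n
    have := (hW i).1.2.self_of_nhds
    rw [(hW i).2] at this
    exact this
  obtain ⟨i0, hi0z, hi0w⟩ := c3 f fs m δ K l a z w hC hCs hK hSP
  obtain ⟨zs0, ws0, hzs0, hws0, htz, htw, hκ0⟩ :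
      ∃ zs ws : ℂ, zs ≠ 0 ∧ ws ≠ 0 ∧ Tendsto (fun n => z n i0) l (𝓝 zs) ∧
        Tendsto (fun n => w n i0) l (𝓝 ws) ∧ ‖zs * ws‖ = κ := by
    rcases c1 l κ (fun n => z n i0) (fun n => w n i0) hκ (hprod i0) with h | h | h
    · exact absurd h hi0z
    · exact absurd h hi0w
    · exact h
  obtain ⟨e0, he0, η0, hη0, hη01, H0⟩ := limf_pack h4 c2 hf hf0 hdf htz (fun n => hz n i0) hlim
  obtain ⟨e1, he1, η1, hη1, hη11, H1⟩ := limf_pack h4 c2 hfs hfs0 hdfs htw (fun n => hw n i0) hlim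
  have hall : ∀ i : Fin K, ∃ (e : ℕ) (η : ℝ), 1 ≤ e ∧ 0 < η ∧ ∀ k : ℕ, 1 ≤ k →
      ∀ᶠ n in (l : Filter ℕ), ∀ t : ℂ, ‖t‖ < η → t ^ (e * k) = a n - as →
      (∃ g : ℂ → ℂ, DifferentiableOn ℂ g (ball 0 η) ∧
        Sol f (fun u => as + u ^ (e * k)) g (ball 0 η) ∧ g t = z n i) ∨
      (∃ g : ℂ → ℂ, DifferentiableOn ℂ g (ball 0 η) ∧
        Sol fs (fun u => as + u ^ (e * k)) g (ball 0 η) ∧ g t = w n i) := by
    intro i
    rcases c1 l κ (fun n => z n i) (fun n => w n i) hκ (hprod i) with h | h | h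
    · obtain ⟨e, he, η, hη, _, H⟩ := limf_pack h4 c2 hf hf0 hdf h (fun n => hz n i) hlim
      refine ⟨e, η, he, hη, fun k hk => ?_⟩
      filter_upwards [H k hk] with n hn t ht htk
      obtain ⟨g, g1, _, g3, g4⟩ := hn t ht htk
      exact Or.inl ⟨g, g1, g4, g3⟩
    · obtain ⟨e, he, η, hη, _, H⟩ := limf_pack h4 c2 hfs hfs0 hdfs h (fun n => hw n i) hlim
      refine ⟨e, η, he, hη, fun k hk => ?_⟩
      filter_upwards [H k hk] with n hn t ht htk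
      obtain ⟨g, g1, _, g3, g4⟩ := hn t ht htk
      exact Or.inr ⟨g, g1, g4, g3⟩
    · obtain ⟨zs, ws, _, _, h, _, _⟩ := h
      obtain ⟨e, he, η, hη, _, H⟩ := limf_pack h4 c2 hf hf0 hdf h (fun n => hz n i) hlim
      refine ⟨e, η, he, hη, fun k hk => ?_⟩
      filter_upwards [H k hk] with n hn t ht htk
      obtain ⟨g, g1, _, g3, g4⟩ := hn t ht htk
      exact Or.inl ⟨g, g1, g4, g3⟩
  choose e η he hη H using hall
  set N : ℕ := e0 * (e1 * ∏ i, e i) with hN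
  have hE : 0 < ∏ i, e i := Finset.prod_pos fun i _ => he i
  have hN0 : 0 < N := by positivity
  have hk : ∀ i, ∃ k : ℕ, 1 ≤ k ∧ e i * k = N := by
    intro i
    have hd : e i ∣ N := by
      rw [hN]
      exact ((Finset.dvd_prod_of_mem e (Finset.mem_univ i)).mul_left e1).mul_left e0
    obtain ⟨k, hk⟩ := hd
    refine ⟨k, ?_, hk.symm⟩
    rcases Nat.eq_zero_or_pos k with h | h
    · rw [h, mul_zero] at hk; omega
    · exact h
  choose k hk1 hkN using hk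
  have hk0 : 1 ≤ e1 * ∏ i, e i := by
    have : 0 < e1 * ∏ i, e i := Nat.mul_pos he1 hE
    exact this
  have hk01 : 1 ≤ e0 * ∏ i, e i := by
    have : 0 < e0 * ∏ i, e i := Nat.mul_pos he0 hE
    exact this
  have hkN1 : e1 * (e0 * ∏ i, e i) = N := by rw [hN]; ring
  -- the radius
  obtain ⟨r, hr, hr1, hrη, hr0, hr01, hras⟩ : ∃ r : ℝ, 0 < r ∧ r < 1 ∧ (∀ i, r < η i) ∧ r < η0 ∧
      r < η1 ∧ (as ≠ 0 → r < ‖as‖) := by
    have ev : ∀ᶠ r in 𝓝[>] (0 : ℝ), 0 < r ∧ r < 1 ∧ (∀ i, r < η i) ∧ r < η0 ∧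
      r < η1 ∧ (as ≠ 0 → r < ‖as‖) := by
      have p0 : ∀ᶠ r in 𝓝[>] (0 : ℝ), 0 < r := eventually_mem_nhdsWithin
      have pc : ∀ c : ℝ, 0 < c → ∀ᶠ r in 𝓝[>] (0 : ℝ), r < c := fun c hc =>
        eventually_nhdsWithin_of_eventually_nhds (eventually_lt_nhds hc)
      have p6 : ∀ᶠ r in 𝓝[>] (0 : ℝ), as ≠ 0 → r < ‖as‖ := by
        by_cases h : as = 0
        · exact Eventually.of_forall fun r h' => absurd h h'
        · filter_upwards [pc ‖as‖ (norm_pos_iff.2 h)] with r hr _ using hr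
      filter_upwards [p0, pc 1 one_pos, eventually_all.2 fun i => pc (η i) (hη i), pc η0 hη0,
        pc η1 hη1, p6] with r h1 h2 h3 h4 h5 h6
      exact ⟨h1, h2, h3, h4, h5, h6⟩
    exact ev.exists
  -- the index n
  have hsmall : ∀ᶠ n in (l : Filter ℕ), ‖a n - as‖ < r ^ N := by
    have := (Metric.tendsto_nhds.1 hlim) (r ^ N) (pow_pos hr N)
    simpa [dist_eq_norm] using this
  have hev : ∀ᶠ n in (l : Filter ℕ), ‖a n - as‖ < r ^ N ∧
      (∀ t : ℂ, ‖t‖ < η0 → t ^ (e0 * (e1 * ∏ i, e i)) = a n - as →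
        ∃ g : ℂ → ℂ, DifferentiableOn ℂ g (ball 0 η0) ∧ g 0 = zs0 ∧ g t = z n i0 ∧
        Sol f (fun u => as + u ^ (e0 * (e1 * ∏ i, e i))) g (ball 0 η0)) ∧
      (∀ t : ℂ, ‖t‖ < η1 → t ^ (e1 * (e0 * ∏ i, e i)) = a n - as →
        ∃ g : ℂ → ℂ, DifferentiableOn ℂ g (ball 0 η1) ∧ g 0 = ws0 ∧ g t = w n i0 ∧
        Sol fs (fun u => as + u ^ (e1 * (e0 * ∏ i, e i))) g (ball 0 η1)) ∧
      ∀ i, ∀ t : ℂ, ‖t‖ < η i → t ^ (e i * k i) = a n - as →
      (∃ g : ℂ → ℂ, DifferentiableOn ℂ g (ball 0 (η i)) ∧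
        Sol f (fun u => as + u ^ (e i * k i)) g (ball 0 (η i)) ∧ g t = z n i) ∨
      (∃ g : ℂ → ℂ, DifferentiableOn ℂ g (ball 0 (η i)) ∧
        Sol fs (fun u => as + u ^ (e i * k i)) g (ball 0 (η i)) ∧ g t = w n i) := by
    filter_upwards [hsmall, H0 _ hk0, H1 _ hk01, eventually_all.2 fun i => H i (k i) (hk1 i)]
      with n h1 h2 h3 h4
    exact ⟨h1, h2, h3, h4⟩
  obtain ⟨n, hn1, hn2, hn3, hn4⟩ := hev.exists
  rw [← hN] at hn2
  rw [hkN1] at hn3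
  obtain ⟨t1, ht1⟩ := IsAlgClosed.exists_pow_nat_eq (a n - as) hN0
  have ht1r : ‖t1‖ < r := by
    rw [← ht1, norm_pow] at hn1
    exact lt_of_pow_lt_pow_left₀ N hr.le hn1
  have ht10 : t1 ≠ 0 := by
    intro h
    rw [h, zero_pow hN0.ne'] at ht1
    exact hne n (sub_eq_zero.1 ht1.symm)
  obtain ⟨g0, g01, g02, g03, g04⟩ := hn2 t1 (ht1r.trans hr0) ht1
  obtain ⟨h0, h01, h02, h03, h04⟩ := hn3 t1 (ht1r.trans hr01) ht1
  have hPB : ∀ u ∈ PB r, u ≠ 0 := fun u hu => norm_pos_iff.1 hu.1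
  refine h8 f fs K κ r (fun u => as + u ^ N) (a n) (z n) (w n) t1 i0 g0 h0 hf hfs hκ hr hmin
    (hSP n) ?_ ?_ ?_ ⟨norm_pos_iff.2 ht10, ht1r⟩ ?_ (g01.mono (ball_subset_ball hr0.le))
    (h01.mono (ball_subset_ball hr01.le)) (fun u hu => g04 u (limf_sub hr0.le hu))
    (fun u hu => h04 u (limf_sub hr01.le hu)) g03 h03 ?_ ?_
  · exact ((differentiable_const as).add (differentiable_id.pow N)).differentiableOn
  · intro u hu
    by_cases has : as = 0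
    · simp only [has, zero_add]
      exact pow_ne_zero _ (hPB u hu)
    · intro h
      have h1 : ‖as‖ = ‖u‖ ^ N := by
        rw [← norm_pow, eq_neg_of_add_eq_zero_left h, norm_neg]
      have h2 : ‖u‖ ^ N ≤ ‖u‖ := pow_le_of_le_one (norm_nonneg u) (hu.2.trans hr1).le hN0.ne'
      have h3 := hras has
      have h4 := hu.2
      linarith
  · intro u hu
    have : deriv (fun u : ℂ => as + u ^ N) u = N * u ^ (N - 1) := by
      simp
    rw [this]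
    exact mul_ne_zero (Nat.cast_ne_zero.2 hN0.ne') (pow_ne_zero _ (hPB u hu))
  · show as + t1 ^ N = a n
    rw [ht1]; ring
  · rw [g02, h02, hκ0]
  · intro i
    have := hn4 i t1 (ht1r.trans (hrη i)) (by rw [hkN i]; exact ht1)
    rw [hkN i] at this
    rcases this with ⟨g, ga, gb, gc⟩ | ⟨g, ga, gb, gc⟩
    · exact Or.inl ⟨g, ga.mono (limf_sub (hrη i).le), fun u hu => gb u (limf_sub (hrη i).le hu), gc⟩
    · exact Or.inr ⟨g, ga.mono (limf_sub (hrη i).le), fun u hu => gb u (limf_sub (hrη i).le hu), gc⟩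

end Pool.Agent.W724.MX

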